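import Pool.Agent.H37.Chrom.Defs
import Pool.Agent.H43CHR.Final
import Pool.Agent.H43CHR.LeftPoint
import Pool.Agent.H80L.Left

/-!
# Limits of chromatic roots of 3-connected planar graphs inside the two lenses

The right lens is `|q - 1| < 1`, `|q - 2| < 1`, the left lens is `|q| < 1`, `|q - 1| < 1`. The
closure of the set of chromatic roots of 3-connected planar graphs contains every `q` of the right
lens with `|1 - (2 - q)^m| < |q - 1|^2` for some `m ≥ 3`, and every `q` of the left lens with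
`|1 - (1 - q)^m| < |q|` for some `m ≥ 3`. Every point of the boundary of one of the two lenses
other than `0`, `1`, `2` is an interior point of this closure.

The graphs for the right lens: a cycle with one hub inside and one hub outside, every vertex of the
cycle joined to exactly one of the two hubs; long stretches at the second hub are separated by a
single vertex at the first hub (`s` times) or by the pattern `C D^(m-2) C` (`t` times), `C` = joined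
to the first hub, `D` = joined to the second hub. For long stretches the chromatic polynomial is
governed by `(q-1)^(s+t-1) (q^2-3q+1) + (1 + (2-q) + ... + (2-q)^(m-1))^t`, whose zeros are dense in
the region when `s` and `t` vary. The graphs for the left lens (helper80): subdivided wheels with a
collar.
-/

namespace Pool.Agent.Results.MP_5e2eaf_co.InsideTheLens

open H37.Chrom

theorem result :
    (∀ q : ℂ, ‖q - 1‖ < 1 → ‖q - 2‖ < 1 →
      (∃ m : ℕ, 3 ≤ m ∧ ‖1 - (2 - q) ^ m‖ < ‖q - 1‖ ^ 2) → q ∈ closure rootSet) ∧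
    (∀ q : ℂ, ‖q‖ < 1 → ‖q - 1‖ < 1 →
      (∃ m : ℕ, 3 ≤ m ∧ ‖1 - (1 - q) ^ m‖ < ‖q‖) → q ∈ closure rootSet) ∧
    (∀ q : ℂ, ‖q - 1‖ ≤ 1 → ‖q - 2‖ ≤ 1 → (‖q - 1‖ = 1 ∨ ‖q - 2‖ = 1) → q ≠ 1 → q ≠ 2 →
      q ∈ interior (closure rootSet)) ∧
    (∀ q : ℂ, ‖q‖ ≤ 1 → ‖q - 1‖ ≤ 1 → (‖q‖ = 1 ∨ ‖q - 1‖ = 1) → q ≠ 0 → q ≠ 1 →
      q ∈ interior (closure rootSet)) ∧
    (‖((3 / 2 : ℝ) + (4 / 5 : ℝ) * Complex.I : ℂ) - 1‖ < 1 ∧
      ‖((3 / 2 : ℝ) + (4 / 5 : ℝ) * Complex.I : ℂ) - 2‖ < 1 ∧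
      ‖1 - (2 - ((3 / 2 : ℝ) + (4 / 5 : ℝ) * Complex.I : ℂ)) ^ 6‖ <
        ‖((3 / 2 : ℝ) + (4 / 5 : ℝ) * Complex.I : ℂ) - 1‖ ^ 2) ∧
    (‖((3 / 4 : ℝ) + (3 / 5 : ℝ) * Complex.I : ℂ)‖ < 1 ∧
      ‖((3 / 4 : ℝ) + (3 / 5 : ℝ) * Complex.I : ℂ) - 1‖ < 1 ∧
      ‖1 - (1 - ((3 / 4 : ℝ) + (3 / 5 : ℝ) * Complex.I : ℂ)) ^ 5‖ <
        ‖((3 / 4 : ℝ) + (3 / 5 : ℝ) * Complex.I : ℂ)‖) := by
  refine ⟨?_, ?_, ?_, ?_, H43CHR.lens_point, H43CHR.left_point⟩
  · rintro q h1 h2 ⟨m, hm, hB⟩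
    exact H43CHR.lens_subset hm h1 h2 hB
  · rintro q h1 h2 ⟨m, hm, hB⟩
    exact H80L.left_subset (by omega) h2 h1 hB
  · intro q h1 h2 h hq1 hq2
    exact H43CHR.lens_interior h1 h2 h hq1 hq2
  · intro q h1 h2 h hq0 hq1
    refine H80L.left_arcs ?_ hq0 hq1
    rcases h with h | h
    · exact Or.inl ⟨h, h2⟩
    · exact Or.inr ⟨h1, h⟩

end Pool.Agent.Results.MP_5e2eaf_co.InsideTheLens
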