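import Pool.Agent.H37.Chrom.Defs
import Pool.Agent.H80R.Final

/-!
# Limits of chromatic roots of 3-connected planar graphs: words of several runs

The right lens is the set `|q - 1| < 1`, `|q - 2| < 1`. Put `z = q - 2`. For a list
`a_1, ..., a_r` of natural numbers `≥ 1` let `(p, s) = (z^2, 1)` for the empty list and
`(p', s') = ((z^3 + z^2 + 2 z + 1) x p + z^2 s, z x p + s)` with `x = (-z)^(a-1)` for one more
entry `a` (`H80R.ps`). If `|s(a_1, ..., a_r)| < |q - 1|^(r + 1)`, `r ≥ 2`, then the point `q` of
the right lens is a limit of chromatic roots of 3-connected planar graphs.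

The graphs: a cycle with one hub inside and one hub outside, every vertex of the cycle joined to
exactly one of the two hubs (`C`: the first, `D`: the second hub); long stretches of `D` are
separated by a single `C` (`s` times) or by `C D^a_1 C D^a_2 ... C D^a_r C` (`t` times).
-/

namespace Pool.Agent.Results.MP_5e2eaf_co.RunWords

open H37.Chrom

theorem result (q : ℂ) (as : List ℕ) (hr : 2 ≤ as.length) (has : ∀ a ∈ as, 1 ≤ a)
    (h1 : ‖q - 1‖ < 1) (h2 : ‖q - 2‖ < 1)
    (hs : ‖(H80R.ps q as).2‖ < ‖q - 1‖ ^ (as.length + 1)) : q ∈ closure rootSet :=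
  H80R.words_subset has h1 h2 hs

end Pool.Agent.Results.MP_5e2eaf_co.RunWords
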