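import Pool.Agent.H37.Chrom.Defs
import Pool.Agent.H37.Chrom.Final
import Pool.Agent.CHR.Inside
import Pool.Agent.CHR.Middle

/-!
# Limits of chromatic roots of 3-connected planar graphs

The closure of the set of chromatic roots of 3-connected planar graphs contains every complex
number `q` with `|q - 1| ≥ 1`, and every `q` with `|q| ≥ 1` and `|q - 2| ≥ 1`. Hence only the two
lenses `|q - 1| < 1, |q| < 1` and `|q - 1| < 1, |q - 2| < 1` remain open.

The graphs. Outside the discs `|q - 1| < 1` and `|q - 2| < 1`: generalized theta graphs with a
collar, a long closed ladder-like strip, in every bounded face (helper37). For `|q - 1| ≥ 1`,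
`|q - 2| < 1`: a cycle with one hub inside and one hub outside, every vertex of the cycle joined to
exactly one of the two hubs; periodic patterns with different growth rates of the two colourings
types (the hubs have equal or different colours) give a dense set of limits of zeros. For
`|q - 1| < 1`, `|q| ≥ 1`, `|q - 2| ≥ 1`: a cycle with a collar inside and a hub outside, which is
joined to some of the vertices of a part of the cycle; for a long collar the roots of the
subdivided wheels survive.
-/

namespace Pool.Agent.Results.MP_5e2eaf_co.TwoLenses

open H37.Chrom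

theorem result : {q : ℂ | 1 ≤ ‖q - 1‖ ∨ (1 ≤ ‖q‖ ∧ 1 ≤ ‖q - 2‖)} ⊆ closure rootSet := by
  intro q hq
  by_cases h1 : 1 ≤ ‖q - 1‖
  · by_cases h2 : 1 ≤ ‖q - 2‖
    · exact outside_subset h1 h2
    · exact CHR.inside_subset h1 (not_le.1 h2)
  · rcases hq with h | ⟨h2, h3⟩
    · exact absurd h h1
    · exact CHR.middle_subset (not_le.1 h1) h2 h3

end Pool.Agent.Results.MP_5e2eaf_co.TwoLenses
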